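import Pool.Agent.Q246.NR.LogOne
import Pool.Agent.Q246.NR.Box
import Pool.Agent.Q246.NR.Scales

/-!
# A measure of algebraic independence for the logarithms of almost all tuples of integers

The question asks whether `|P(log α₁, ..., log α_k)| ≥ H ^ (-C)` for all nonzero integer polynomials `P` of degree at
most `d` and height at most `H`, if the logarithms are linearly independent over `ℚ`.  Not even `P(...) ≠ 0` is known
for `k, d ≥ 2`.

We consider tuples `(log x₁, ..., log x_k)`, where the `x_j` are integers in `[2, T]`.  There are numbers `B` and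
`c > 0` which depend only on `k` and `d` such that for all but `O(T ^ (k - c))` of these tuples the inequality
`|P(log x₁, ..., log x_k)| ≥ H ^ (-B)` holds

* for all `H` in a long interval from `H₁` to `H₁ ^ exp (T ^ c)`, for any sufficiently large `H₁`;
* for a set of `H` of upper density at least `1 - T ^ (-c)` on the doubly logarithmic scale; in particular for
  arbitrarily large `H`, with an exceptional set of tuples which does not depend on `H`.

The same holds relative to arbitrary complex constants `ζ₁, ..., ζ_g` (for instance other logarithms of algebraic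
numbers, or `π`, or Liouville numbers): `|P(ζ, log x)| ≥ H ^ (-B) |P_e(ζ)|` for all coefficients `P_e(ζ)` of
`P(ζ, X)`, uniformly in `ζ`.

Proof (modules `Pool.Agent.Q246.NR`).  (1) For a short window, that is for points `t - g` with `0 ≤ g ≤ h` and
`(h + 2) ^ E ≤ t`, the values `log (1 - g / t)` are values of G-functions at the small point `1 / t`.  We prove a
form of the theorem of Chudnovsky and Galochkin for near relations of arbitrary height: many independent vectors
which are nearly orthogonal to the values, up to `δ`, give `δ ≥ c A ^ (-B)`, where `A` is the height of the vectors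
and `B` does not depend on the window.  With the multiples of one polynomial this is a lower bound for the values of
all polynomials of bounded degree and arbitrary height in `n` such logarithms, with an exponent independent of the
window.  (2) If more than `n (d + 1)` points of a window satisfy near relations whose coefficients are integer
combinations of the same `n` constants, the constants are eliminated one after the other; this contradicts (1).
So a window contains a bounded number of exceptional points, for each `H`.  (3) Induction on `k`, where the logarithms of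
`x₂, ..., x_k` are treated as constants.
-/

set_option autoImplicit false

namespace Pool.Agent.Results.MP_3cf473_nt.AlmostAllIntegers

/-- `P = Σ P_e(Y) X ^ e` has degree at most `d` in `X`, its coefficients `P_e` have degree at most `d` in `Y`,
and the integer coefficients are at most `H` in absolute value -/
def Adm {k g : ℕ} (d : ℕ) (H : ℝ) (P : MvPolynomial (Fin k) (MvPolynomial (Fin g) ℤ)) : Prop :=
  P.totalDegree ≤ d ∧ ∀ e, (P.coeff e).totalDegree ≤ d ∧ ∀ f, |(((P.coeff e).coeff f : ℤ) : ℝ)| ≤ H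

/-- the value `P(ζ, log x)` -/
noncomputable def val {k g : ℕ} (ζ : Fin g → ℂ) (x : Fin k → ℕ) (P : MvPolynomial (Fin k) (MvPolynomial (Fin g) ℤ)) :
    ℂ := MvPolynomial.eval₂ (MvPolynomial.aeval ζ).toRingHom (fun j => ((Real.log (x j) : ℝ) : ℂ)) P

/-- the measure of algebraic independence of the numbers `log x_j` for polynomials of degree at most `d` and height
at most `H`, also relative to the constants `ζ` -/
def Good {k g : ℕ} (d B : ℕ) (ζ : Fin g → ℂ) (x : Fin k → ℕ) (H : ℝ) : Prop :=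
  (∀ P : MvPolynomial (Fin k) ℤ, P ≠ 0 → P.totalDegree ≤ d → (∀ e, |((P.coeff e : ℤ) : ℝ)| ≤ H) →
    1 ≤ H ^ B * |MvPolynomial.aeval (fun j => Real.log (x j)) P|) ∧
  ∀ P : MvPolynomial (Fin k) (MvPolynomial (Fin g) ℤ), Adm d H P →
    ∀ e, ‖MvPolynomial.aeval ζ (P.coeff e)‖ ≤ H ^ B * ‖val ζ x P‖

/-- the first part of `Good` follows from the second part -/
lemma good_of {k g : ℕ} {d B : ℕ} {ζ : Fin g → ℂ} {x : Fin k → ℕ} {H : ℝ}
    (h : ∀ P : MvPolynomial (Fin k) (MvPolynomial (Fin g) ℤ), Adm d H P →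
      ∀ e, ‖MvPolynomial.aeval ζ (P.coeff e)‖ ≤ H ^ B * ‖val ζ x P‖) : Good d B ζ x H := by
  refine ⟨fun P hP hd hH => ?_, h⟩
  obtain ⟨e, he⟩ := MvPolynomial.support_nonempty.2 hP
  rw [MvPolynomial.mem_support_iff] at he
  have hH0 : 0 ≤ H := (abs_nonneg _).trans (hH e)
  set P' : MvPolynomial (Fin k) (MvPolynomial (Fin g) ℤ) := MvPolynomial.map (MvPolynomial.C) P with hP'
  have hadm : Adm d H P' := by
    refine ⟨?_, fun e => ⟨?_, fun f => ?_⟩⟩
    · refine le_trans ?_ hd
      unfold MvPolynomial.totalDegree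
      exact Finset.sup_mono (MvPolynomial.support_map_subset _ _)
    · rw [hP', MvPolynomial.coeff_map, MvPolynomial.totalDegree_C]
      exact Nat.zero_le _
    · rw [hP', MvPolynomial.coeff_map, MvPolynomial.coeff_C]
      split_ifs
      · exact hH e
      · simpa using hH0
  have h1 := h P' hadm e
  have h2 : MvPolynomial.aeval ζ (P'.coeff e) = ((P.coeff e : ℤ) : ℂ) := by
    rw [hP', MvPolynomial.coeff_map, MvPolynomial.aeval_C]
    simp
  have h3 : val ζ x P' = ((MvPolynomial.aeval (fun j => Real.log (x j)) P : ℝ) : ℂ) := by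
    rw [val, hP', MvPolynomial.eval₂_map]
    have h4 : ((MvPolynomial.aeval (fun j => Real.log (x j)) P : ℝ) : ℂ) =
        (Complex.ofRealHom : ℝ →+* ℂ) (MvPolynomial.aeval (fun j => Real.log (x j)) P) := rfl
    rw [h4, MvPolynomial.aeval_def, MvPolynomial.eval₂_comp_left]
    congr 1
    exact RingHom.ext_int _ _
  rw [h2, h3, Complex.norm_intCast, Complex.norm_real, Real.norm_eq_abs] at h1
  have h5 : (1 : ℝ) ≤ |((P.coeff e : ℤ) : ℝ)| := by exact_mod_cast Int.one_le_abs he
  exact h5.trans h1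

/-- For all `k`, `g`, `d` there are `B`, `C` and `c > 0` such that for all `T ≥ 1`: for all but at most
`C T ^ (k - c)` of the tuples `x` of integers in `[2, T]` the measure `|P(log x)| ≥ H ^ (-B)` holds for all `H` with
`H₁ ≤ H ≤ H₁ ^ exp (T ^ c)`, for each large `H₁`; and, with one exceptional set for all `H`, for a set of `H` of upper
density at least `1 - T ^ (-c)` on the doubly logarithmic scale; also relative to arbitrary constants. -/
theorem result (k g d : ℕ) : ∃ (B : ℕ) (C c : ℝ), 0 < c ∧ ∀ T : ℕ, 1 ≤ T →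
    (∃ H₀ : ℝ, ∀ H₁ : ℝ, H₀ ≤ H₁ → ∀ ζ : Fin g → ℂ,
      (({x : Fin k → ℕ | (∀ j, 2 ≤ x j ∧ x j ≤ T) ∧
        ¬ ∀ H : ℝ, H₁ ≤ H → H ≤ H₁ ^ Real.exp ((T : ℝ) ^ c) → Good d B ζ x H}.ncard : ℕ) : ℝ) ≤
        C * (T : ℝ) ^ ((k : ℝ) - c)) ∧
    ∀ ζ : Fin g → ℂ, (({x : Fin k → ℕ | (∀ j, 2 ≤ x j ∧ x j ≤ T) ∧
      ¬ ∀ N₀ : ℕ, ∃ N, N₀ ≤ N ∧ (({j : ℕ | j < N ∧
        ¬ ∀ H : ℝ, 2 ^ (2 ^ j) ≤ H → H ≤ 2 ^ (2 ^ (j + 1)) → Good d B ζ x H}.ncard : ℕ) : ℝ) ≤
          (T : ℝ) ^ (-c) * N}.ncard : ℕ) : ℝ) ≤ C * (T : ℝ) ^ ((k : ℝ) - c) := by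
  classical
  obtain ⟨B, C, c, hC, hc, hmain⟩ := Pool.Agent.Q246.NR.multi_log k d ((d + 1) ^ g)
  set X : ℕ → Finset (Fin k → ℕ) := fun T => Fintype.piFinset (fun _ : Fin k => Finset.Icc 2 T) with hX
  have hXm : ∀ T x, x ∈ X T ↔ ∀ j, 2 ≤ x j ∧ x j ≤ T := by
    intro T x
    rw [hX]
    simp only [Fintype.mem_piFinset, Finset.mem_Icc]
  -- the basic statement
  have hbase : ∀ T : ℕ, 1 ≤ T → ∃ H₀ : ℝ, ∀ H : ℝ, H₀ ≤ H → ∀ ζ : Fin g → ℂ,
      ((((X T).filter fun x => ¬ Good d B ζ x H).card : ℕ) : ℝ) ≤ C * (T : ℝ) ^ ((k : ℝ) - c) := by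
    intro T hT
    obtain ⟨H₀, hH₀⟩ := hmain T hT
    refine ⟨max H₀ 1, fun H hH ζ => ?_⟩
    have hH1 : 1 ≤ H := (le_max_right _ _).trans hH
    have hHB : 0 < H ^ B := by positivity
    refine hH₀ H ((le_max_left _ _).trans hH) (Fin g → Fin (d + 1)) (by simp) (fun f => ∏ s, ζ s ^ (f s : ℕ)) _
      (Finset.filter_subset _ _) ?_
    intro x hx
    have hbad := (Finset.mem_filter.1 hx).2
    by_contra hrel
    apply hbad
    apply good_of
    intro P hP e₀
    by_contra hcon
    rw [not_le] at hcon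
    apply hrel
    have hne : MvPolynomial.aeval ζ (P.coeff e₀) ≠ 0 := by
      intro h
      rw [h, norm_zero] at hcon
      have : 0 ≤ H ^ B * ‖val ζ x P‖ := by positivity
      linarith
    have he₀ : e₀ ∈ P.support := by
      rw [MvPolynomial.mem_support_iff]
      intro h
      rw [h, map_zero] at hne
      exact hne rfl
    obtain ⟨e₁, he₁⟩ := Pool.Agent.Q246.NR.toB_surj P hP.1 e₀ he₀
    refine Pool.Agent.Q246.NR.rel_of_poly d H _ ζ
      (fun e : Fin k → Unit → Fin (d + 1) => P.coeff (Pool.Agent.Q246.NR.toB fun j => e j ())) (fun e => (hP.2 _).1)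
      (fun e f => (hP.2 _).2 f) _ (fun j _ => e₁ j) ?_ ?_
    · change MvPolynomial.aeval ζ (P.coeff (Pool.Agent.Q246.NR.toB fun j => e₁ j)) ≠ 0
      have : (fun j => e₁ j) = e₁ := rfl
      rw [this, he₁]
      exact hne
    · have h1 : ∑ e : Fin k → Unit → Fin (d + 1), MvPolynomial.aeval ζ (P.coeff (Pool.Agent.Q246.NR.toB fun j => e j ())) *
          Pool.Agent.Q246.NR.mg (fun _ (x : ℕ) _ => ((Real.log (x : ℝ) : ℝ) : ℂ)) x e = val ζ x P := by
        rw [val, Pool.Agent.Q246.NR.eval_box _ P hP.1]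
        let eqv : (Fin k → Unit → Fin (d + 1)) ≃ (Fin k → Fin (d + 1)) :=
          Equiv.piCongrRight fun _ => Equiv.funUnique Unit (Fin (d + 1))
        rw [← eqv.sum_comp]
        refine Finset.sum_congr rfl fun e _ => ?_
        congr 1
        rw [Pool.Agent.Q246.NR.mg]
        refine Finset.prod_congr rfl fun j _ => ?_
        rw [Fintype.prod_unique]
        rfl
      rw [h1]
      change ‖val ζ x P‖ ≤ (H ^ B)⁻¹ * ‖MvPolynomial.aeval ζ (P.coeff (Pool.Agent.Q246.NR.toB fun j => e₁ j))‖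
      have : (fun j => e₁ j) = e₁ := rfl
      rw [this, he₁, inv_mul_eq_div, le_div_iff₀ hHB, mul_comm]
      exact hcon.le
  -- many heights
  have hGG : ∀ (ζ : Fin g → ℂ) (x : Fin k → ℕ) (H H' : ℝ), 1 ≤ H → H ≤ H' → H' ≤ H ^ 2 → Good d B ζ x H' →
      Good d (2 * B) ζ x H := by
    intro ζ x H H' h1 h2 h3 hg
    apply good_of
    intro P hP e
    have hP' : Adm d H' P := ⟨hP.1, fun e => ⟨(hP.2 e).1, fun f => ((hP.2 e).2 f).trans h2⟩⟩
    refine (hg.2 P hP' e).trans ?_
    refine mul_le_mul_of_nonneg_right ?_ (norm_nonneg _)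
    rw [pow_mul]
    exact pow_le_pow_left₀ (by linarith) h3 _
  have hXc : ∀ T, (((X T).card : ℕ) : ℝ) ≤ (T : ℝ) ^ k := by
    intro T
    rw [hX]
    simp only [Fintype.card_piFinset, Nat.card_Icc, Finset.prod_const, Finset.card_univ, Fintype.card_fin]
    have : (T + 1 - 2) ^ k ≤ T ^ k := Nat.pow_le_pow_left (by omega) k
    exact_mod_cast this
  have hfin := Pool.Agent.Q246.NR.scales X (fun ζ x H => Good d B ζ x H) (fun ζ x H => Good d (2 * B) ζ x H) hGG k C c hC hc
    hXc hbase
  refine ⟨2 * B, 4 * C + 1, c / 2, by linarith, fun T hT => ?_⟩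
  obtain ⟨⟨H₀, hH₀⟩, h2⟩ := hfin T hT
  have hset : ∀ p : (Fin k → ℕ) → Prop, {x : Fin k → ℕ | (∀ j, 2 ≤ x j ∧ x j ≤ T) ∧ p x} =
      (((X T).filter p : Finset (Fin k → ℕ)) : Set (Fin k → ℕ)) := by
    intro p
    ext x
    rw [Finset.mem_coe, Finset.mem_filter, hXm]
    rfl
  have hsetj : ∀ (N : ℕ) (p : ℕ → Prop), {j : ℕ | j < N ∧ p j}.ncard = ((Finset.range N).filter p).card := by
    intro N p
    have : {j : ℕ | j < N ∧ p j} = (((Finset.range N).filter p : Finset ℕ) : Set ℕ) := by
      ext j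
      rw [Finset.mem_coe, Finset.mem_filter, Finset.mem_range]
      rfl
    rw [this, Set.ncard_coe_finset]
  refine ⟨⟨H₀, fun H₁ hH₁ ζ => ?_⟩, fun ζ => ?_⟩
  · rw [hset, Set.ncard_coe_finset]
    convert hH₀ H₁ hH₁ ζ
  · rw [hset, Set.ncard_coe_finset]
    simp only [hsetj]
    convert h2 ζ

end Pool.Agent.Results.MP_3cf473_nt.AlmostAllIntegers
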