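import Pool.Agent.Q138.PS.VB
import Pool.Agent.Q138.PS.UC
import Pool.Agent.Q138.AI.R3cf473

/-!
# Measures of algebraic independence for the logarithms of the integers near `α P(n)`

For all `g`, `d` there are `B` and `c > 0` with the following property. Let `q ≥ 2` and let `ζ_0, ζ_1, …` be `g`-tuples of complex
numbers. Outside a set of real numbers of Hausdorff dimension at most `q / (q + 1 / (q 2 ^ (q - 1)))` (that is `8 / 9` for `q = 2`)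
every `α > 0` has the following property. There are `η > 0` and, for each `i`, `κ > 0` such that for all large `N` and ALL integral
polynomials `P` of degree `q` with positive leading coefficient and coefficients of size at most `N ^ η`: for all but
`N ^ (1 - κ)` of the `n ≤ N`, EVERY integer `x ≥ 2` with `|x - ⌊α P(n)⌋| ≤ N ^ κ` satisfies `|F(log x)| ≥ H ^ (-B)` for all nonzero
`F ∈ ℤ[X]` of degree at most `d` and height at most `H`, and `|F(ζ_i, log x)| ≥ H ^ (-B) |F_e(ζ_i)|` for all `e` and all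
`F = ∑ F_e(Y) X ^ e ∈ ℤ[Y, X]` of degree at most `d` in `X`, with `deg F_e ≤ d`, and height at most `H`, for a set of `H` of upper
density at least `1 - x ^ (-c)` on the doubly logarithmic scale.
-/

set_option autoImplicit false

namespace Pool.Agent.Results.MP_3cf473_nt.LogarithmsAlongRealMultiples

open Filter Topology MeasureTheory
open Pool.Agent.Q138.PS Pool.Agent.Q138.AI.R3cf473

/-- The measure with exponent `B` holds for `log x` (and `ζ`) for a set of `H` of upper density at least `1 - η` on the doubly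
logarithmic scale: for arbitrarily large `N` it holds for all `H ∈ [2 ^ (2 ^ j), 2 ^ (2 ^ (j + 1))]` for all but at most `η N` of
the `j < N`. -/
def Often {g : ℕ} (d B : ℕ) (ζ : Fin g → ℂ) (x : ℕ) (η : ℝ) : Prop :=
  ∀ N₀ : ℕ, ∃ N, N₀ ≤ N ∧ (({j : ℕ | j < N ∧
    ¬ ∀ H : ℝ, 2 ^ (2 ^ j) ≤ H → H ≤ 2 ^ (2 ^ (j + 1)) → Good d B ζ (fun _ : Fin 1 => x) H}.ncard : ℕ) : ℝ) ≤ η * N

theorem Often.mono {g : ℕ} {d B : ℕ} {ζ : Fin g → ℂ} {x : ℕ} {η η' : ℝ} (h : η ≤ η') (hO : Often d B ζ x η) :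
    Often d B ζ x η' := by
  intro N₀
  obtain ⟨N, h1, h2⟩ := hO N₀
  exact ⟨N, h1, h2.trans (mul_le_mul_of_nonneg_right h (Nat.cast_nonneg N))⟩

/-- `x ≥ 2` and the measure does not hold for almost all scales, `η = x ^ (-c)` -/
def Fails {g : ℕ} (d B : ℕ) (ζ : Fin g → ℂ) (c : ℝ) (x : ℕ) : Prop := 2 ≤ x ∧ ¬ Often d B ζ x ((x : ℝ) ^ (-c))

theorem few (g d : ℕ) : ∃ (B : ℕ) (c : ℝ), 0 < c ∧ ∀ ζ : Fin g → ℂ, ∃ C : ℝ, ∀ Y : ℕ, 1 ≤ Y →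
    cn (Fails d B ζ c) Y ≤ C * (Y : ℝ) ^ (1 - c) := by
  obtain ⟨B, C, c, hc, h⟩ := Pool.Agent.Q138.AI.R3cf473.result 1 g d
  refine ⟨B, c, hc, fun ζ => ⟨C, fun Y hY => ?_⟩⟩
  have hY1 : (1 : ℝ) ≤ Y := by exact_mod_cast hY
  have h1 := (h Y hY).2 ζ
  rw [Nat.cast_one] at h1
  have hfin : {x : Fin 1 → ℕ | (∀ j, 2 ≤ x j ∧ x j ≤ Y) ∧
      ¬ ∀ N₀ : ℕ, ∃ N', N₀ ≤ N' ∧ (({j : ℕ | j < N' ∧
        ¬ ∀ H : ℝ, 2 ^ (2 ^ j) ≤ H → H ≤ 2 ^ (2 ^ (j + 1)) → Good d B ζ x H}.ncard : ℕ) : ℝ) ≤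
          (Y : ℝ) ^ (-c) * N'}.Finite := by
    refine (Fintype.piFinset fun _ : Fin 1 => Finset.Icc 2 Y).finite_toSet.subset ?_
    rintro x ⟨h1, -⟩
    rw [Finset.mem_coe, Fintype.mem_piFinset]
    exact fun j => Finset.mem_Icc.2 (h1 j)
  refine le_trans ?_ h1
  rw [cn_ncard]
  refine Nat.cast_le.2 (Set.ncard_le_ncard_of_injOn (fun x : ℕ => fun _ : Fin 1 => x) ?_ ?_ hfin)
  · rintro x ⟨h3, h4, h5, h6⟩
    refine ⟨fun _ => ⟨h5, h4⟩, fun hO => h6 ?_⟩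
    have hO' : Often d B ζ x ((Y : ℝ) ^ (-c)) := hO
    refine hO'.mono ?_
    have hx : (1 : ℝ) ≤ x := by exact_mod_cast h3
    exact Real.rpow_le_rpow_of_nonpos (by linarith) (by exact_mod_cast h4) (by linarith)
  · intro x _ y _ hxy
    exact congrFun hxy 0

/-- **Theorem.** -/
theorem result (g d : ℕ) : ∃ (B : ℕ) (c : ℝ), 0 < c ∧ ∀ (q : ℕ), 2 ≤ q → ∀ ζ : ℕ → Fin g → ℂ,
    ∃ E : Set ℝ, dimH E ≤ ENNReal.ofReal (q / (q + 1 / ((q : ℝ) * 2 ^ (q - 1)))) ∧ ∀ α : ℝ, 0 < α → α ∉ E →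
      ∃ η : ℝ, 0 < η ∧ ∀ i : ℕ, ∃ κ : ℝ, 0 < κ ∧ ∀ᶠ N : ℕ in atTop,
      ∀ P : Polynomial ℤ, P.natDegree = q → 0 < P.leadingCoeff → (∀ j, |((P.coeff j : ℤ) : ℝ)| ≤ (N : ℝ) ^ η) →
        (badW (Fails d B (ζ i) c) ⌊(N : ℝ) ^ κ⌋₊ α P N : ℝ) ≤ (N : ℝ) ^ (1 - κ) := by
  obtain ⟨B, c, hc, h⟩ := few g d
  refine ⟨B, c, hc, fun q hq ζ => ?_⟩
  obtain ⟨E, hE, hg⟩ := exc_bad (ι := ℕ) q hq (fun i => Fails d B (ζ i) c)
  refine ⟨E, hE, fun α hα hαE => ?_⟩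
  obtain ⟨η, hη, h1⟩ := hg α hα hαE
  refine ⟨η, hη, fun i => ?_⟩
  obtain ⟨C, hC⟩ := h (ζ i)
  exact h1 i C c hc hC

end Pool.Agent.Results.MP_3cf473_nt.LogarithmsAlongRealMultiples
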