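import Pool.Agent.Q138.PS.XS
import Pool.Agent.Q138.AI.R3cf473

/-!
# Measures of algebraic independence for the logarithms of the integers near the powers of real numbers

For all `g`, `d` there are `B` and `c > 0` with the following property. Let `ζ_0, ζ_1, …` be `g`-tuples of complex numbers and
`l < 1`. There is a set `E` of real numbers of Hausdorff dimension at most `(1 - c) / (1 - l)` (less than `1` for `l < c`) such that
for every real number `α > 1` outside `E`, all real algebraic `b > 0`, all integers `j`, all real `D`, all `i` and all large `n`,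
for EVERY integer `x ≥ 2` with `|x - b n ^ j α ^ n| ≤ D (b n ^ j α ^ n) ^ l`: `|P(log x)| ≥ H ^ (-B)` for all nonzero `P ∈ ℤ[X]` of
degree at most `d` and height at most `H`, and `|P(ζ_i, log x)| ≥ H ^ (-B) |P_e(ζ_i)|` for all `e` and all
`P = ∑ P_e(Y) X ^ e ∈ ℤ[Y, X]` of degree at most `d` in `X`, with `deg P_e ≤ d`, and height at most `H`, for a set of `H` of upper
density at least `1 - x ^ (-c)` on the doubly logarithmic scale; in particular for arbitrarily large `H`.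
-/

set_option autoImplicit false

namespace Pool.Agent.Results.MP_3cf473_nt.LogarithmsNearPowers

open Filter Topology MeasureTheory
open Pool.Agent.Q138.PS Pool.Agent.Q138.AI.R3cf473

/-- The measure with exponent `B` holds for `log x` (and `ζ`) for a set of `H` of upper density at least `1 - η` on the doubly
logarithmic scale: for arbitrarily large `N` it holds for all `H ∈ [2 ^ (2 ^ j), 2 ^ (2 ^ (j + 1))]` for all but at most `η N` of
the `j < N`. -/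
def Often {g : ℕ} (d B : ℕ) (ζ : Fin g → ℂ) (x : ℕ) (η : ℝ) : Prop :=
  ∀ N₀ : ℕ, ∃ N, N₀ ≤ N ∧ (({j : ℕ | j < N ∧
    ¬ ∀ H : ℝ, 2 ^ (2 ^ j) ≤ H → H ≤ 2 ^ (2 ^ (j + 1)) → Good d B ζ (fun _ : Fin 1 => x) H}.ncard : ℕ) : ℝ) ≤ η * N

theorem Often.mono {g : ℕ} {d B : ℕ} {ζ : Fin g → ℂ} {x : ℕ} {η η' : ℝ} (h : η ≤ η') (hO : Often d B ζ x η) :
    Often d B ζ x η' := by
  intro N₀
  obtain ⟨N, h1, h2⟩ := hO N₀
  exact ⟨N, h1, h2.trans (mul_le_mul_of_nonneg_right h (Nat.cast_nonneg N))⟩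

theorem few (g d : ℕ) : ∃ (B : ℕ) (c : ℝ), 0 < c ∧ c ≤ 1 ∧ ∀ ζ : Fin g → ℂ, ∃ C : ℝ, ∀ Y : ℕ, 1 ≤ Y →
    cn (fun x => 2 ≤ x ∧ ¬ Often d B ζ x ((x : ℝ) ^ (-c))) Y ≤ C * (Y : ℝ) ^ (1 - c) := by
  obtain ⟨B, C, c, hc, h⟩ := Pool.Agent.Q138.AI.R3cf473.result 1 g d
  refine ⟨B, min c 1, lt_min hc one_pos, min_le_right _ _, fun ζ => ⟨|C|, fun Y hY => ?_⟩⟩
  have hY1 : (1 : ℝ) ≤ Y := by exact_mod_cast hY
  have h1 := (h Y hY).2 ζ
  rw [Nat.cast_one] at h1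
  have hfin : {x : Fin 1 → ℕ | (∀ j, 2 ≤ x j ∧ x j ≤ Y) ∧
      ¬ ∀ N₀ : ℕ, ∃ N', N₀ ≤ N' ∧ (({j : ℕ | j < N' ∧
        ¬ ∀ H : ℝ, 2 ^ (2 ^ j) ≤ H → H ≤ 2 ^ (2 ^ (j + 1)) → Good d B ζ x H}.ncard : ℕ) : ℝ) ≤
          (Y : ℝ) ^ (-c) * N'}.Finite := by
    refine (Fintype.piFinset fun _ : Fin 1 => Finset.Icc 2 Y).finite_toSet.subset ?_
    rintro x ⟨h1, -⟩
    rw [Finset.mem_coe, Fintype.mem_piFinset]
    exact fun j => Finset.mem_Icc.2 (h1 j)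
  have h2 : cn (fun x => 2 ≤ x ∧ ¬ Often d B ζ x ((x : ℝ) ^ (-(min c 1)))) Y ≤ C * (Y : ℝ) ^ (1 - c) := by
    refine le_trans ?_ h1
    rw [cn_ncard]
    refine Nat.cast_le.2 (Set.ncard_le_ncard_of_injOn (fun x : ℕ => fun _ : Fin 1 => x) ?_ ?_ hfin)
    · rintro x ⟨h3, h4, h5, h6⟩
      refine ⟨fun _ => ⟨h5, h4⟩, fun hO => h6 ?_⟩
      have hO' : Often d B ζ x ((Y : ℝ) ^ (-c)) := hO
      refine hO'.mono ?_
      have hx : (1 : ℝ) ≤ x := by exact_mod_cast h3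
      calc (Y : ℝ) ^ (-c) ≤ (Y : ℝ) ^ (-(min c 1)) :=
            Real.rpow_le_rpow_of_exponent_le hY1 (by linarith [min_le_left c 1])
        _ ≤ (x : ℝ) ^ (-(min c 1)) :=
            Real.rpow_le_rpow_of_nonpos (by linarith) (by exact_mod_cast h4) (by
              have : 0 < min c 1 := lt_min hc one_pos
              linarith)
    · intro x _ y _ hxy
      exact congrFun hxy 0
  calc cn (fun x => 2 ≤ x ∧ ¬ Often d B ζ x ((x : ℝ) ^ (-(min c 1)))) Y ≤ C * (Y : ℝ) ^ (1 - c) := h2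
    _ ≤ |C| * (Y : ℝ) ^ (1 - c) := mul_le_mul_of_nonneg_right (le_abs_self C) (by positivity)
    _ ≤ |C| * (Y : ℝ) ^ (1 - min c 1) :=
      mul_le_mul_of_nonneg_left (Real.rpow_le_rpow_of_exponent_le hY1 (by linarith [min_le_left c 1])) (abs_nonneg C)

/-- **Theorem.** -/
theorem result (g d : ℕ) : ∃ (B : ℕ) (c : ℝ), 0 < c ∧ ∀ (ζ : ℕ → Fin g → ℂ) (l : ℝ), l < 1 →
    ∃ E : Set ℝ, dimH E ≤ ENNReal.ofReal ((1 - c) / (1 - l)) ∧ ∀ α : ℝ, 1 < α → α ∉ E → ∀ (i : ℕ) (b : ℝ), 0 < b →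
      IsAlgebraic ℚ b → ∀ (j : ℤ) (D : ℝ), ∀ᶠ n : ℕ in atTop, ∀ x : ℕ, 2 ≤ x → NearPow α b j D l n x →
        Often d B (ζ i) x ((x : ℝ) ^ (-c)) := by
  obtain ⟨B, c, hc, hc1, h⟩ := few g d
  refine ⟨B, c, hc, fun ζ l hl => ?_⟩
  obtain ⟨E, hE, hg⟩ := pow_alg (ι := ℕ) (fun i => {m | 1 ≤ m ∧ (2 ≤ m ∧ ¬ Often d B (ζ i) m ((m : ℝ) ^ (-c)))}) (1 - c) l
    (by linarith) hl (fun i ε hε => by
      obtain ⟨C, hC⟩ := h (ζ i)
      refine ⟨|C|, fun T hT => (cn_pow (by linarith) hC T hT).trans ?_⟩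
      exact mul_le_mul_of_nonneg_left (Real.rpow_le_rpow_of_exponent_le hT (by linarith)) (abs_nonneg C))
  refine ⟨E, hE, fun α hα hαE i b hb hba j D => ?_⟩
  filter_upwards [hg α hα hαE i b hb hba j D] with n hn x hx hnear
  by_contra h1
  exact hn x hnear ⟨by omega, hx, h1⟩

end Pool.Agent.Results.MP_3cf473_nt.LogarithmsNearPowers
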