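import Pool.Agent.Q138.PS.WO
import Pool.Agent.Q138.AI.R3cf473

/-!
# A measure of algebraic independence for the logarithms of all tuples of integers which are close to a given point

Let `k ≥ 1` and `g`, `d` be given. There are `B` and `c > 0` with the following property. Let `Y` be a metric space and `p` ANY
map which associates a point of `Y` to every `k`-tuple of natural numbers, let `ζ_0, ζ_1, …` be a sequence of `g`-tuples of complex
numbers, and `τ > 0`. There is a set `Z ⊆ Y` of Hausdorff dimension at most `(k - c) / τ` such that for every `z ∈ Y` outside `Z`,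
all `i` and all `b`, for all but finitely many of the `k`-tuples `x` of integers `x_j ≥ 2` with `dist (p x, z) ≤ b |x| ^ (-τ)` the
measure of algebraic independence

  `|P(log x_1, …, log x_k)| ≥ H ^ (-B)` for all nonzero `P ∈ ℤ[X_1, …, X_k]` of degree `≤ d` and height `≤ H`

and its analogue relative to the constants `ζ_i` hold for a set of `H` of upper density at least `1 - |x| ^ (-c)` on the doubly
logarithmic scale, in particular for arbitrarily large `H`.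

For `Y = ℤ_ℓ ^ k` and `τ = 1` the dimension is at most `k - c`: for almost all `z ∈ ℤ_ℓ ^ k` the tuples `x` are the truncations of
the `ℓ`-adic expansions of the `z_j` at the same place. For `Y = ℙ ^ (k - 1) (ℝ)` and Dirichlet's exponent `τ = k / (k - 1)` it is
less than `k - 1`: the tuples are the integral points close to almost any given line through the origin.
-/

set_option autoImplicit false

namespace Pool.Agent.Results.MP_3cf473_nt.TuplesNearGivenPoints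

open Pool.Agent.Q138.PS Pool.Agent.Q138.AI.R3cf473

/-- the largest coordinate -/
def size {k : ℕ} (x : Fin k → ℕ) : ℕ := Finset.univ.sup x

/-- The measure with exponent `B` holds for a set of `H` of upper density at least `1 - η` on the doubly logarithmic scale: for
arbitrarily large `N` it holds for all `H ∈ [2 ^ (2 ^ j), 2 ^ (2 ^ (j + 1))]` for all but at most `η N` of the `j < N`. -/
def Often {k g : ℕ} (d B : ℕ) (ζ : Fin g → ℂ) (x : Fin k → ℕ) (η : ℝ) : Prop :=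
  ∀ N₀ : ℕ, ∃ N, N₀ ≤ N ∧ (({j : ℕ | j < N ∧
    ¬ ∀ H : ℝ, 2 ^ (2 ^ j) ≤ H → H ≤ 2 ^ (2 ^ (j + 1)) → Good d B ζ x H}.ncard : ℕ) : ℝ) ≤ η * N

theorem Often.mono {k g : ℕ} {d B : ℕ} {ζ : Fin g → ℂ} {x : Fin k → ℕ} {η η' : ℝ} (h : η ≤ η') (hO : Often d B ζ x η) :
    Often d B ζ x η' := by
  intro N₀
  obtain ⟨N, h1, h2⟩ := hO N₀
  exact ⟨N, h1, h2.trans (mul_le_mul_of_nonneg_right h (Nat.cast_nonneg N))⟩

/-- **Theorem.** -/
theorem result (k g d : ℕ) (hk : 1 ≤ k) : ∃ (B : ℕ) (c : ℝ), 0 < c ∧ ∀ (ζ : ℕ → Fin g → ℂ) (Y : Type) [MetricSpace Y]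
    [MeasurableSpace Y] [BorelSpace Y] (p : (Fin k → ℕ) → Y) (τ : ℝ), 0 < τ →
      ∃ Z : Set Y, dimH Z ≤ ENNReal.ofReal ((k - c) / τ) ∧ ∀ z, z ∉ Z → ∀ (i : ℕ) (b : ℝ),
        {x : Fin k → ℕ | (∀ j, 2 ≤ x j) ∧ dist (p x) z ≤ b * (size x : ℝ) ^ (-τ) ∧
          ¬ Often d B (ζ i) x ((size x : ℝ) ^ (-c))}.Finite := by
  classical
  obtain ⟨B, C, c, hc, h⟩ := Pool.Agent.Q138.AI.R3cf473.result k g d
  have hk1 : (1 : ℝ) ≤ k := by exact_mod_cast hk
  refine ⟨B, min c 1, lt_min hc one_pos, fun ζ Y _ _ _ p τ hτ => ?_⟩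
  have hcc : 0 < min c 1 := lt_min hc one_pos
  have key : ∀ i : ℕ, ∃ Z : Set Y, dimH Z ≤ ENNReal.ofReal ((k - min c 1) / τ) ∧ ∀ z, z ∉ Z → ∀ b : ℝ,
      {x | x ∈ {x : Fin k → ℕ | (∀ j, 2 ≤ x j) ∧ ¬ Often d B (ζ i) x ((size x : ℝ) ^ (-(min c 1)))} ∧
        dist (p x) z ≤ b * (max 1 (size x : ℝ)) ^ (-τ)}.Finite := by
    intro i
    refine fin_lim p _ (fun x => max 1 (size x : ℝ)) (fun x => le_max_left _ _) (k - min c 1)
      (by linarith [min_le_right c 1]) (fun ε hε => ?_) τ hτ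
    refine ⟨|C| * 2 ^ |(k : ℝ) - c|, fun T hT => ?_⟩
    have hT0 : 0 < T := by linarith
    set N : ℕ := ⌊T⌋₊ with hN
    have hNT : (N : ℝ) ≤ T := Nat.floor_le hT0.le
    have hN1 : 1 ≤ N := (Nat.one_le_floor_iff T).2 hT
    have hN1' : (1 : ℝ) ≤ N := by exact_mod_cast hN1
    have hTN : T / 2 ≤ N := by
      have h1 : T < N + 1 := Nat.lt_floor_add_one T
      linarith
    have hsub : {x | x ∈ {x : Fin k → ℕ | (∀ j, 2 ≤ x j) ∧ ¬ Often d B (ζ i) x ((size x : ℝ) ^ (-(min c 1)))} ∧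
        max 1 (size x : ℝ) ≤ T} ⊆ {x : Fin k → ℕ | (∀ j, 2 ≤ x j ∧ x j ≤ N) ∧
        ¬ ∀ N₀ : ℕ, ∃ N', N₀ ≤ N' ∧ (({j : ℕ | j < N' ∧
          ¬ ∀ H : ℝ, 2 ^ (2 ^ j) ≤ H → H ≤ 2 ^ (2 ^ (j + 1)) → Good d B (ζ i) x H}.ncard : ℕ) : ℝ) ≤
            (N : ℝ) ^ (-c) * N'} := by
      rintro x ⟨⟨h1, h2⟩, h3⟩
      have hs : size x ≤ N := Nat.le_floor ((le_max_right _ _).trans h3)
      have hxs : ∀ j, x j ≤ size x := fun j => Finset.le_sup (f := x) (Finset.mem_univ j)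
      refine ⟨fun j => ⟨h1 j, (hxs j).trans hs⟩, fun hO => h2 ?_⟩
      have hO' : Often d B (ζ i) x ((N : ℝ) ^ (-c)) := hO
      refine hO'.mono ?_
      have hsz : (1 : ℝ) ≤ (size x : ℝ) := by
        have := (h1 ⟨0, hk⟩).trans (hxs ⟨0, hk⟩)
        exact_mod_cast (by omega : 1 ≤ size x)
      calc (N : ℝ) ^ (-c) ≤ (N : ℝ) ^ (-(min c 1)) :=
            Real.rpow_le_rpow_of_exponent_le hN1' (by linarith [min_le_left c 1])
        _ ≤ (size x : ℝ) ^ (-(min c 1)) :=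
            Real.rpow_le_rpow_of_nonpos (by linarith) (by exact_mod_cast hs) (by linarith)
    have hfin : {x : Fin k → ℕ | (∀ j, 2 ≤ x j ∧ x j ≤ N) ∧
        ¬ ∀ N₀ : ℕ, ∃ N', N₀ ≤ N' ∧ (({j : ℕ | j < N' ∧
          ¬ ∀ H : ℝ, 2 ^ (2 ^ j) ≤ H → H ≤ 2 ^ (2 ^ (j + 1)) → Good d B (ζ i) x H}.ncard : ℕ) : ℝ) ≤
            (N : ℝ) ^ (-c) * N'}.Finite := by
      refine (Fintype.piFinset fun _ : Fin k => Finset.Icc 2 N).finite_toSet.subset ?_
      rintro x ⟨h1, -⟩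
      rw [Finset.mem_coe, Fintype.mem_piFinset]
      exact fun j => Finset.mem_Icc.2 (h1 j)
    refine ⟨hfin.subset hsub, ?_⟩
    have h1 := (h N hN1).2 (ζ i)
    have h2 : (({x | x ∈ {x : Fin k → ℕ | (∀ j, 2 ≤ x j) ∧ ¬ Often d B (ζ i) x ((size x : ℝ) ^ (-(min c 1)))} ∧
        max 1 (size x : ℝ) ≤ T}).ncard : ℝ) ≤ C * (N : ℝ) ^ ((k : ℝ) - c) :=
      le_trans (by exact_mod_cast Set.ncard_le_ncard hsub hfin) h1
    have h3 : (N : ℝ) ^ ((k : ℝ) - c) ≤ 2 ^ |(k : ℝ) - c| * T ^ ((k : ℝ) - c) := by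
      rcases le_or_gt 0 ((k : ℝ) - c) with h4 | h4
      · have h5 : (1 : ℝ) ≤ 2 ^ |(k : ℝ) - c| := Real.one_le_rpow (by norm_num) (abs_nonneg _)
        have h6 : (N : ℝ) ^ ((k : ℝ) - c) ≤ T ^ ((k : ℝ) - c) := Real.rpow_le_rpow (by positivity) hNT h4
        have h7 : 0 ≤ T ^ ((k : ℝ) - c) := by positivity
        nlinarith
      · calc (N : ℝ) ^ ((k : ℝ) - c) ≤ (T / 2) ^ ((k : ℝ) - c) :=
              Real.rpow_le_rpow_of_nonpos (by positivity) hTN h4.le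
          _ = 2 ^ |(k : ℝ) - c| * T ^ ((k : ℝ) - c) := by
            rw [Real.div_rpow hT0.le (by norm_num), abs_of_neg h4, Real.rpow_neg (by norm_num : (0 : ℝ) ≤ 2)]
            rw [div_eq_mul_inv, mul_comm]
    calc (({x | x ∈ {x : Fin k → ℕ | (∀ j, 2 ≤ x j) ∧ ¬ Often d B (ζ i) x ((size x : ℝ) ^ (-(min c 1)))} ∧
          max 1 (size x : ℝ) ≤ T}).ncard : ℝ) ≤ C * (N : ℝ) ^ ((k : ℝ) - c) := h2
      _ ≤ |C| * (N : ℝ) ^ ((k : ℝ) - c) := mul_le_mul_of_nonneg_right (le_abs_self C) (Real.rpow_nonneg (Nat.cast_nonneg _) _)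
      _ ≤ |C| * (2 ^ |(k : ℝ) - c| * T ^ ((k : ℝ) - c)) := mul_le_mul_of_nonneg_left h3 (abs_nonneg C)
      _ ≤ |C| * (2 ^ |(k : ℝ) - c| * T ^ ((k : ℝ) - min c 1 + ε)) := by
          refine mul_le_mul_of_nonneg_left (mul_le_mul_of_nonneg_left (Real.rpow_le_rpow_of_exponent_le hT ?_)
            (by positivity)) (abs_nonneg C)
          linarith [min_le_left c 1]
      _ = |C| * 2 ^ |(k : ℝ) - c| * T ^ ((k : ℝ) - min c 1 + ε) := by ring
  choose Z hZ hz using key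
  refine ⟨⋃ i, Z i, ?_, fun z hzZ i b => (hz i z (fun hh => hzZ (Set.mem_iUnion.2 ⟨_, hh⟩)) b).subset ?_⟩
  · rw [dimH_iUnion]
    exact iSup_le hZ
  · rintro x ⟨h1, h2, h3⟩
    refine ⟨⟨h1, h3⟩, ?_⟩
    have hsz : (1 : ℝ) ≤ (size x : ℝ) := by
      have h4 : x ⟨0, hk⟩ ≤ size x := Finset.le_sup (f := x) (Finset.mem_univ _)
      have := (h1 ⟨0, hk⟩).trans h4
      exact_mod_cast (by omega : 1 ≤ size x)
    rw [max_eq_right hsz]
    exact h2

end Pool.Agent.Results.MP_3cf473_nt.TuplesNearGivenPoints
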